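import Pool.Agent.H31.CF.U3

/-!
# Complete family (MP_347b49_nt), part U, row KST: the kernel does not change on the sublattices of
index `p`
-/

set_option autoImplicit false

open scoped Real Matrix MatrixGroups

namespace Pool.Agent.H13.CFU

open Pool.Agent.H31.CN Pool.Agent.H91.CF Pool.Agent.H31.CF

theorem kern_congr (f : ℕ) (Q Q' : QF) (v v' : ℤ × ℤ)
    (h : ∀ l : ℕ, l.Prime → l ∣ f → prt l Q' = prt l Q ∧ ((l : ℤ) ∣ Q'.1 ↔ (l : ℤ) ∣ Q.1) ∧
      ((l : ℤ) ∣ val Q' v' ↔ (l : ℤ) ∣ val Q v) ∧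
      ∀ j : ℕ, (l : ℤ) ^ j ∣ v'.2 ↔ (l : ℤ) ^ j ∣ v.2) :
    kern f Q' (1, 0) v' = kern f Q (1, 0) v := by
  unfold kern
  refine Finset.prod_congr rfl fun l hl => ?_
  obtain ⟨h1, h2, h3, h4⟩ := h l (Nat.prime_of_mem_primeFactors hl)
    (Nat.dvd_of_mem_primeFactors hl)
  have e1 : ∀ R : QF, val R (1, 0) = R.1 := fun R => by simp [val]
  have e2 : ∀ w : ℤ × ℤ, dtm (1, 0) w = w.2 := fun w => by simp [dtm]
  have e3 : npQ f l Q' = npQ f l Q := by unfold npQ; rw [h1]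
  unfold kp
  simp only [e1, e2, e3, h2, h3, h4]

theorem dml {k m n : ℤ} (h : IsCoprime k m) : k ∣ m * n ↔ k ∣ n :=
  ⟨fun h1 => h.dvd_of_dvd_mul_left h1, fun h1 => h1.mul_left m⟩

theorem dmr {k m n : ℤ} (h : IsCoprime k m) : k ∣ n * m ↔ k ∣ n :=
  ⟨fun h1 => h.dvd_of_dvd_mul_right h1, fun h1 => h1.mul_right m⟩

theorem pf_KST (hHK2 : T_HK2) : T_KST := by
  intro f p Q v hf hp hc
  have hne : ∀ l : ℕ, l.Prime → l ∣ f → l ≠ p := by
    rintro l hl hlf rfl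
    exact hl.one_lt.ne' (Nat.Coprime.eq_one_of_dvd hc hlf)
  have hcop : ∀ l : ℕ, l.Prime → l ∣ f → ∀ j : ℕ, IsCoprime ((l : ℤ) ^ j) (p : ℤ) := by
    intro l hl hlf j
    have : Nat.Coprime (l ^ j) p := Nat.Coprime.pow_left j
      ((Nat.coprime_primes hl hp).2 (hne l hl hlf))
    exact_mod_cast Nat.isCoprime_iff_coprime.2 this
  have hp0 : (p : ℤ) ≠ 0 := by exact_mod_cast hp.ne_zero
  constructor
  · intro h1 h2
    refine kern_congr f _ _ _ _ fun l hl hlf => ?_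
    have h3 := ((hHK2 p l Q v hp hl (hne l hl hlf)).1 h1 h2).2
    have h4 := ((hHK2 p l Q (0, 0) hp hl (hne l hl hlf)).1 h1 (dvd_zero _)).1
    refine ⟨by simpa [nul] using h4, ?_, ?_, ?_⟩
    · obtain ⟨k, hk⟩ := h1
      have hc1 := hcop l hl hlf 1
      rw [pow_one] at hc1
      simp only [hk, Int.mul_ediv_cancel_left _ hp0]
      exact (dml hc1).symm
    · have hc1 := hcop l hl hlf 1
      rw [pow_one] at hc1
      rw [← h3]
      exact (dmr hc1).symm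
    · intro j
      obtain ⟨k, hk⟩ := h2
      simp only [hk, Int.mul_ediv_cancel_left _ hp0]
      exact (dml (hcop l hl hlf j)).symm
  · intro j h1 h2
    refine kern_congr f _ _ _ _ fun l hl hlf => ?_
    have h3 := ((hHK2 p l Q v hp hl (hne l hl hlf)).2 j h1 h2).2
    have h4 := ((hHK2 p l Q (0, 0) hp hl (hne l hl hlf)).2 j h1 (by simp)).1
    have hc1 := hcop l hl hlf 1
    rw [pow_one] at hc1
    refine ⟨by simpa [nul] using h4, ?_, ?_, fun i => Iff.rfl⟩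
    · exact dml hc1
    · rw [← h3]
      exact (dmr hc1).symm

end Pool.Agent.H13.CFU
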